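import Pool.Agent.W455.EM.Stm

/-!
# Project EM: near perfect matchings outside the extremal case
-/

set_option autoImplicit false

namespace Pool.Agent.W486.EM

open Finset Pool.Agent.FracEM.PMT Pool.Agent.W455.EM

variable {n : ℕ}

lemma card_containing (k : ℕ) (W : Finset (Fin n)) (H : Finset (Finset (Fin n)))
    (hk : ∀ e ∈ H, e.card = k) (hW : ∀ e ∈ H, e ⊆ W) (S : Finset (Fin n)) :
    (H.filter (fun e => S ⊆ e)).card ≤ W.card ^ (k - S.card) := by
  refine (card_le_card_of_injOn (fun e => e \ S) (t := W.powersetCard (k - S.card)) ?_ ?_).trans ?_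
  · intro e he
    obtain ⟨heH, hS⟩ := mem_filter.1 (mem_coe.1 he)
    rw [mem_coe, mem_powersetCard]
    exact ⟨sdiff_subset.trans (hW e heH), by rw [card_sdiff_of_subset hS, hk e heH]⟩
  · intro e he e' he' heq
    have h1 := (mem_filter.1 (mem_coe.1 he)).2
    have h2 := (mem_filter.1 (mem_coe.1 he')).2
    have heq' : e \ S = e' \ S := heq
    rw [← sdiff_union_of_subset h1, ← sdiff_union_of_subset h2, heq']
  · rw [card_powersetCard]
    exact Nat.choose_le_pow _ _

lemma exists_low (P : Finset (Fin n × Fin n)) (Z : Finset (Fin n)) (D : ℝ)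
    (h : 2 * (P.card : ℝ) < D * Z.card) :
    ∃ v ∈ Z, ((P.filter (fun p => p.1 = v ∨ p.2 = v)).card : ℝ) ≤ D := by
  by_contra hcon
  push Not at hcon
  have h1 : ∑ v : Fin n, (P.filter (fun p => p.1 = v)).card = P.card :=
    (card_eq_sum_card_fiberwise (fun p _ => mem_univ _)).symm
  have h2 : ∑ v : Fin n, (P.filter (fun p => p.2 = v)).card = P.card :=
    (card_eq_sum_card_fiberwise (fun p _ => mem_univ _)).symm
  have h3 : ∑ v ∈ Z, (P.filter (fun p => p.1 = v ∨ p.2 = v)).card ≤ 2 * P.card := by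
    calc ∑ v ∈ Z, (P.filter (fun p => p.1 = v ∨ p.2 = v)).card
        ≤ ∑ v ∈ Z, ((P.filter (fun p => p.1 = v)).card + (P.filter (fun p => p.2 = v)).card) := by
          refine sum_le_sum fun v _ => ?_
          rw [filter_or]
          exact card_union_le _ _
      _ ≤ ∑ v : Fin n, ((P.filter (fun p => p.1 = v)).card +
            (P.filter (fun p => p.2 = v)).card) :=
          sum_le_sum_of_subset (subset_univ _)
      _ = 2 * P.card := by rw [sum_add_distrib, h1, h2]; ring
  have h4 : D * Z.card ≤ ∑ v ∈ Z, ((P.filter (fun p => p.1 = v ∨ p.2 = v)).card : ℝ) := by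
    calc D * Z.card = ∑ v ∈ Z, D := by rw [sum_const, nsmul_eq_mul]; ring
      _ ≤ _ := sum_le_sum fun v hv => (hcon v hv).le
  have h5 : (∑ v ∈ Z, ((P.filter (fun p => p.1 = v ∨ p.2 = v)).card : ℝ)) ≤ 2 * (P.card : ℝ) := by
    exact_mod_cast h3
  linarith

lemma deg_bound (i : ℕ) (W : Finset (Fin n)) (H : Finset (Finset (Fin n)))
    (hk : ∀ e ∈ H, e.card = i + 3) (hW : ∀ e ∈ H, e ⊆ W) (z : Fin n → ℝ)
    (P : Finset (Fin n × Fin n)) (hPne : ∀ p ∈ P, p.1 ≠ p.2)
    (hP : ∀ e ∈ H, (∃ p ∈ P, p.1 ∈ e ∧ p.2 ∈ e) ∨ 1 ≤ ∑ v ∈ e, z v) (v : Fin n) (hv : z v = 0) :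
    deg H v ≤ (P.filter (fun p => p.1 = v ∨ p.2 = v)).card * W.card ^ (i + 1) +
      P.card * W.card ^ i +
      ((W.powersetCard (i + 2)).filter (fun T => 1 ≤ ∑ u ∈ T, z u)).card := by
  classical
  set A1 := (P.filter (fun p => p.1 = v ∨ p.2 = v)).biUnion
    (fun p => H.filter (fun e => ({p.1, p.2} : Finset (Fin n)) ⊆ e)) with hA1
  set A2 := (P.filter (fun p => ¬ (p.1 = v ∨ p.2 = v))).biUnion
    (fun p => H.filter (fun e => ({v, p.1, p.2} : Finset (Fin n)) ⊆ e)) with hA2
  set A3 := H.filter (fun e => v ∈ e ∧ 1 ≤ ∑ u ∈ e, z u) with hA3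
  have hsub : H.filter (fun e => v ∈ e) ⊆ A1 ∪ A2 ∪ A3 := by
    intro e he
    obtain ⟨heH, hve⟩ := mem_filter.1 he
    rw [mem_union, mem_union]
    rcases hP e heH with ⟨p, hpP, h1, h2⟩ | h1
    · left
      by_cases hpv : p.1 = v ∨ p.2 = v
      · left
        rw [hA1, mem_biUnion]
        refine ⟨p, mem_filter.2 ⟨hpP, hpv⟩, mem_filter.2 ⟨heH, ?_⟩⟩
        intro x hx
        rw [mem_insert, mem_singleton] at hx
        rcases hx with rfl | rfl
        · exact h1
        · exact h2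
      · right
        rw [hA2, mem_biUnion]
        refine ⟨p, mem_filter.2 ⟨hpP, hpv⟩, mem_filter.2 ⟨heH, ?_⟩⟩
        intro x hx
        rw [mem_insert, mem_insert, mem_singleton] at hx
        rcases hx with rfl | rfl | rfl
        · exact hve
        · exact h1
        · exact h2
    · right
      exact mem_filter.2 ⟨heH, hve, h1⟩
  have c1 : A1.card ≤ (P.filter (fun p => p.1 = v ∨ p.2 = v)).card * W.card ^ (i + 1) := by
    refine card_biUnion_le_card_mul _ _ _ fun p hp => ?_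
    have h1 := card_containing (i + 3) W H hk hW {p.1, p.2}
    rw [card_pair (hPne p (mem_filter.1 hp).1)] at h1
    exact h1
  have c2 : A2.card ≤ P.card * W.card ^ i := by
    refine (card_biUnion_le_card_mul _ _ (W.card ^ i) fun p hp => ?_).trans
      (Nat.mul_le_mul_right _ (card_filter_le _ _))
    obtain ⟨hpP, hpv⟩ := mem_filter.1 hp
    push Not at hpv
    have h1 := card_containing (i + 3) W H hk hW {v, p.1, p.2}
    have h2 : ({v, p.1, p.2} : Finset (Fin n)).card = 3 := by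
      rw [card_insert_of_notMem, card_pair (hPne p hpP)]
      rw [mem_insert, mem_singleton]
      rintro (h | h)
      · exact hpv.1 h.symm
      · exact hpv.2 h.symm
    rw [h2] at h1
    exact h1
  have c3 : A3.card ≤
      ((W.powersetCard (i + 2)).filter (fun T => 1 ≤ ∑ u ∈ T, z u)).card := by
    refine card_le_card_of_injOn (fun e => e.erase v) ?_ ?_
    · intro e he
      obtain ⟨heH, hve, h1⟩ := mem_filter.1 (mem_coe.1 he)
      rw [mem_coe, mem_filter, mem_powersetCard]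
      refine ⟨⟨(erase_subset _ _).trans (hW e heH), ?_⟩, ?_⟩
      · rw [card_erase_of_mem hve, hk e heH]; rfl
      · have h2 := add_sum_erase e z hve
        rw [hv, zero_add] at h2
        rw [h2]; exact h1
    · intro e he e' he' heq
      have h1 := (mem_filter.1 (mem_coe.1 he)).2.1
      have h2 := (mem_filter.1 (mem_coe.1 he')).2.1
      have heq' : e.erase v = e'.erase v := heq
      rw [← insert_erase h1, ← insert_erase h2, heq']
  calc deg H v ≤ (A1 ∪ A2 ∪ A3).card := card_le_card hsub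
    _ ≤ A1.card + A2.card + A3.card :=
        (card_union_le _ _).trans (Nat.add_le_add_right (card_union_le _ _) _)
    _ ≤ _ := by omega

lemma bern (x a : ℝ) (ha : 0 ≤ a) (hax : a ≤ x) (i : ℕ) :
    x ^ (i + 1) - ((i : ℝ) + 1) * a * x ^ i ≤ (x - a) ^ (i + 1) := by
  induction i with
  | zero => simp
  | succ i ih =>
    have h1 := mul_le_mul_of_nonneg_left ih (sub_nonneg.2 hax)
    have h2 : (x - a) ^ (i + 1 + 1) = (x - a) * (x - a) ^ (i + 1) := by ring
    rw [h2]
    refine le_trans ?_ h1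
    have h3 : 0 ≤ ((i : ℝ) + 1) * a ^ 2 * x ^ i := by
      have : 0 ≤ x := ha.trans hax
      positivity
    push_cast
    have h4 : (x - a) * (x ^ (i + 1) - ((i : ℝ) + 1) * a * x ^ i) =
        x ^ (i + 1 + 1) - ((i : ℝ) + 1 + 1) * a * x ^ (i + 1) + ((i : ℝ) + 1) * a ^ 2 * x ^ i := by
      ring
    rw [h4]
    linarith

lemma matching_left (k : ℕ) (W : Finset (Fin n)) (M : Finset (Finset (Fin n)))
    (hk : ∀ e ∈ M, e.card = k) (hW : ∀ e ∈ M, e ⊆ W) (hM : Matching M) :
    ((W \ M.biUnion id).card : ℝ) = W.card - k * M.card := by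
  have h1 : M.biUnion id ⊆ W := by
    intro x hx
    obtain ⟨e, he, hxe⟩ := mem_biUnion.1 hx
    exact hW e he hxe
  have h2 : (M.biUnion id).card = M.card * k := by
    have h3 : (M.biUnion id).card = ∑ e ∈ M, (id e : Finset (Fin n)).card :=
      card_biUnion (fun e he e' he' hne => hM e he e' he' hne)
    rw [h3]
    calc ∑ e ∈ M, (id e : Finset (Fin n)).card = ∑ e ∈ M, k := sum_congr rfl (fun e he => hk e he)
      _ = M.card * k := by rw [sum_const, smul_eq_mul]
  rw [card_sdiff_of_subset h1, Nat.cast_sub (card_le_card h1), h2]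
  push_cast; ring

theorem np (h3 : S_S3) (hL : S_LPD) (hC : S_CNT) (hQ : S_QNT) : S_NP := by
  classical
  intro k hk3 γ hγ
  obtain ⟨i, rfl⟩ : ∃ i, k = i + 3 := ⟨k - 3, by omega⟩
  have hcast : ((i + 3 : ℕ) : ℝ) = ((i + 2 : ℕ) : ℝ) + 1 := by push_cast; ring
  set K : ℝ := ((i + 2 : ℕ) : ℝ) + 1 with hK
  have hK3 : 3 ≤ K := by
    have : (0 : ℝ) ≤ (i : ℝ) := Nat.cast_nonneg i
    rw [hK]; push_cast; linarith
  have hK0 : 0 < K := by linarith
  set g1 : ℝ := min (γ / 4) (1 / 4) with hg1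
  have hg1pos : 0 < g1 := lt_min (by positivity) (by norm_num)
  have hg1a : g1 ≤ 1 / 4 := min_le_right _ _
  have hg1b : g1 ≤ γ / 4 := min_le_left _ _
  obtain ⟨ρ, hρ, hS3⟩ := h3 (i + 2) (by omega) g1 hg1pos hg1a
  set α : ℝ := ρ * g1 ^ (i + 2) / 8 with hα
  have hαpos : 0 < α := by positivity
  refine ⟨α, hαpos, fun β hβ => ?_⟩
  set b : ℝ := min β 1 with hb
  have hbpos : 0 < b := lt_min hβ one_pos
  have hb1 : b ≤ 1 := min_le_right _ _
  have hbβ : b ≤ β := min_le_left _ _
  obtain ⟨C0, hC0, hLP⟩ := hL (i + 3) (by omega) (b / 4) (by positivity)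
  set F : ℝ := ((i + 2).factorial : ℝ) with hF
  have hFpos : 0 < F := by rw [hF]; exact_mod_cast Nat.factorial_pos _
  set δ : ℝ := α / (4 * F) with hδ
  have hδpos : 0 < δ := by positivity
  set C2 : ℝ := C0 * F + K * K with hC2
  have hC2pos : 0 < C2 := by positivity
  refine ⟨⌈8 * C0 / (b * δ) + 2 * C2 / α + C0 / γ + K⌉₊ + 1, ?_⟩
  intro n W hWn H hHk hHW hdeg hext
  have hm0 : 8 * C0 / (b * δ) + 2 * C2 / α + C0 / γ + K < (W.card : ℝ) := by
    have h1 := Nat.le_ceil (8 * C0 / (b * δ) + 2 * C2 / α + C0 / γ + K)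
    have h2 : ((⌈8 * C0 / (b * δ) + 2 * C2 / α + C0 / γ + K⌉₊ + 1 : ℕ) : ℝ) ≤ (W.card : ℝ) := by
      exact_mod_cast hWn
    push_cast at h2
    linarith
  set m : ℝ := (W.card : ℝ) with hm
  have t1 : 0 < 8 * C0 / (b * δ) := by positivity
  have t2 : 0 < 2 * C2 / α := by positivity
  have t3 : 0 < C0 / γ := by positivity
  have hm1 : 8 * C0 / (b * δ) < m := by linarith
  have hm2 : 2 * C2 / α < m := by linarith
  have hm3 : C0 / γ < m := by linarith
  have hmK : K < m := by linarith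
  have hmpos : 0 < m := by linarith
  have hWne : W.Nonempty := by
    rw [← card_pos]
    have : (0 : ℝ) < (W.card : ℝ) := hmpos
    exact_mod_cast this
  by_contra hcon
  push Not at hcon
  -- all matchings are small
  have hMat : ∀ M ⊆ H, Matching M → (M.card : ℝ) ≤ (1 - b) * m / K := by
    intro M hMH hM
    have h1 := hcon M hMH hM
    rw [matching_left (i + 3) W M (fun e he => hHk e (hMH he)) (fun e he => hHW e (hMH he)) hM,
      hcast] at h1
    rw [le_div_iff₀ hK0]
    have h2 : b * m ≤ β * m := mul_le_mul_of_nonneg_right hbβ hmpos.le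
    linarith
  obtain ⟨y, P, hy0, hyW, hPC, hPW, hPy⟩ := hLP n W H hHk hHW _ hMat
  have hyW2 : ∑ v ∈ W, y v ≤ (1 - b / 2) * (W.card : ℝ) / ((i + 3 : ℕ) : ℝ) := by
    refine hyW.trans ?_
    rw [hcast, ← mul_div_assoc, ← mul_assoc]
    refine div_le_div_of_nonneg_right ?_ hK0.le
    refine mul_le_mul_of_nonneg_right ?_ hmpos.le
    have hbb := mul_pos hbpos hbpos
    have hbe : (1 + b / 4) * (1 - b) = 1 - b / 2 - (b / 4 + b * b / 4) := by ring
    rw [hbe]
    linarith
  obtain ⟨z, hz01, hzW, hzZ, hze⟩ := hQ (i + 3) n W y (b / 2) (by omega) hWne (by positivity)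
    (by linarith) hy0 hyW2
  rw [hcast] at hzW
  have hPz : ∀ e ∈ H, (∃ p ∈ P, p.1 ∈ e ∧ p.2 ∈ e) ∨ 1 ≤ ∑ v ∈ e, z v := by
    intro e he
    rcases hPy e he with h | h
    · exact Or.inl h
    · exact Or.inr (hze e (hHW e he) (hHk e he) h)
  -- choice of the vertex
  obtain ⟨v, hvZ, hvP⟩ := exists_low P (W.filter (fun v => z v = 0)) (δ * m) (by
    have h1 : 8 * C0 < m * (b * δ) := (div_lt_iff₀ (by positivity)).1 hm1
    have h2 : δ * m * (b / 2 / 2 * m) ≤ δ * m * ((W.filter (fun v => z v = 0)).card : ℝ) :=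
      mul_le_mul_of_nonneg_left hzZ (by positivity)
    have h4 : (2 * C0) * m < δ * m * (b / 2 / 2 * m) := by
      have h5 : δ * m * (b / 2 / 2 * m) = (m * (b * δ)) / 4 * m := by ring
      rw [h5]
      exact mul_lt_mul_of_pos_right (by linarith) hmpos
    linarith)
  obtain ⟨hvW, hzv⟩ := mem_filter.1 hvZ
  have hdb := deg_bound i W H hHk hHW z P (fun p hp => (hPW p hp).1) hPz v hzv
  set N : ℕ := ((W.powersetCard (i + 2)).filter (fun T => 1 ≤ ∑ u ∈ T, z u)).card with hN
  have hdb' : (deg H v : ℝ) ≤ δ * m * m ^ (i + 1) + C0 * m * m ^ i + N := by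
    have h1 : (deg H v : ℝ) ≤ ((P.filter (fun p => p.1 = v ∨ p.2 = v)).card : ℝ) * m ^ (i + 1) +
        (P.card : ℝ) * m ^ i + N := by
      rw [hm]; exact_mod_cast hdb
    have h2 : ((P.filter (fun p => p.1 = v ∨ p.2 = v)).card : ℝ) * m ^ (i + 1) ≤
        δ * m * m ^ (i + 1) := mul_le_mul_of_nonneg_right hvP (by positivity)
    have h4 : (P.card : ℝ) * m ^ i ≤ C0 * m * m ^ i :=
      mul_le_mul_of_nonneg_right hPC (by positivity)
    linarith
  -- the bound for the number of heavy sets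
  have hcnt := hC n W (fun v => K * z v) (i + 2) K
  rw [← hF, ← hm] at hcnt
  have hNN : (N : ℝ) * F ≤ m ^ (i + 2) -
      NN (fun v : {x // x ∈ W} => K * z v.1) (i + 2) K := by
    refine le_trans (mul_le_mul_of_nonneg_right ?_ hFpos.le) hcnt
    have : N ≤ ((W.powersetCard (i + 2)).filter (fun S => K ≤ ∑ v ∈ S, K * z v)).card := by
      refine card_le_card fun T hT => ?_
      obtain ⟨h1, h2⟩ := mem_filter.1 hT
      refine mem_filter.2 ⟨h1, ?_⟩
      rw [← mul_sum]
      exact le_mul_of_one_le_right hK0.le h2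
    exact_mod_cast this
  have hV : Nonempty {x // x ∈ W} := ⟨⟨v, hvW⟩⟩
  have hs3 := hS3 {x // x ∈ W} (fun v => K * z v.1) (fun v => mul_nonneg hK0.le (hz01 v.1).1) (by
    rw [Fintype.card_coe, ← mul_sum, Finset.sum_coe_sort W (fun v => z v)]
    calc K * ∑ v ∈ W, z v ≤ K * (m / K) := mul_le_mul_of_nonneg_left hzW hK0.le
      _ = m := by field_simp)
  rw [Fintype.card_coe, ← hm, ← hK] at hs3
  set bad : Finset (Fin n) := W.filter (fun v => g1 ≤ K * z v ∧ K * z v ≤ K - g1) with hbad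
  have hbadc : ((univ : Finset {x // x ∈ W}).filter
      (fun v => g1 ≤ K * z v.1 ∧ K * z v.1 ≤ K - g1)).card = bad.card := by
    rw [← card_image_of_injective _ Subtype.val_injective]
    congr 1
    ext x
    rw [mem_image, hbad, mem_filter]
    constructor
    · rintro ⟨⟨u, hu⟩, hu2, rfl⟩
      exact ⟨hu, (mem_filter.1 hu2).2⟩
    · rintro ⟨h1, h2⟩
      exact ⟨⟨x, h1⟩, mem_filter.2 ⟨mem_univ _, h2⟩, rfl⟩
  rw [hbadc] at hs3
  -- the degree condition
  have hd := hdeg v hvW
  have hk1 : i + 3 - 1 = i + 2 := rfl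
  rw [hk1, hcast] at hd
  set L0 : ℝ := (1 - 1 / K) ^ (i + 2) with hL0
  have hq0 : 0 ≤ 1 - 1 / K := by
    rw [sub_nonneg, div_le_one hK0]; linarith
  have hq1 : 1 - 1 / K ≤ 1 := by
    have : 0 < 1 / K := by positivity
    linarith
  have hL00 : 0 ≤ L0 := pow_nonneg hq0 _
  have hL01 : L0 ≤ 1 := pow_le_one₀ hq0 hq1
  set A : ℝ := (((W.card - 1).choose (i + 2) : ℕ) : ℝ) * F with hA
  have hAdesc : A = (((W.card - 1).descFactorial (i + 2) : ℕ) : ℝ) := by
    rw [hA, hF, Nat.descFactorial_eq_factorial_mul_choose]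
    push_cast; ring
  have hAle : A ≤ m ^ (i + 2) := by
    rw [hAdesc, hm]
    have h1 : (W.card - 1).descFactorial (i + 2) ≤ W.card ^ (i + 2) :=
      (Nat.descFactorial_le_pow _ _).trans (Nat.pow_le_pow_left (Nat.sub_le _ _) _)
    exact_mod_cast h1
  have hAge : m ^ (i + 2) - K * K * m ^ (i + 1) ≤ A := by
    have h1 := bern m K hK0.le hmK.le (i + 1)
    have h2 : (W.card - (i + 3)) ^ (i + 2) ≤ (W.card - 1).descFactorial (i + 2) := by
      refine le_trans (Nat.pow_le_pow_left ?_ _) (Nat.pow_sub_le_descFactorial (W.card - 1) (i + 2))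
      omega
    have h4 : i + 3 ≤ W.card := by
      have : ((i + 3 : ℕ) : ℝ) < (W.card : ℝ) := by rw [hcast]; exact hmK
      exact_mod_cast this.le
    have h5 : (m - K) ^ (i + 2) ≤ A := by
      rw [hAdesc]
      have h6 : (((W.card - (i + 3)) ^ (i + 2) : ℕ) : ℝ) = (m - K) ^ (i + 2) := by
        rw [Nat.cast_pow, Nat.cast_sub h4, hcast]
      rw [← h6]
      exact_mod_cast h2
    have h7 : (((i + 1 : ℕ) : ℝ) + 1) * K * m ^ (i + 1) ≤ K * K * m ^ (i + 1) := by
      refine mul_le_mul_of_nonneg_right (mul_le_mul_of_nonneg_right ?_ hK0.le) (by positivity)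
      rw [hK]; push_cast; linarith
    have h8 : i + 1 + 1 = i + 2 := rfl
    rw [h8] at h1
    linarith
  have hmain : ρ * (bad.card : ℝ) ^ (i + 2) ≤ 2 * α * m ^ (i + 2) := by
    have e1 : (1 - L0 - α) * A ≤ (δ * m * m ^ (i + 1) + C0 * m * m ^ i + N) * F := by
      rw [hA, ← mul_assoc]
      exact mul_le_mul_of_nonneg_right (hd.trans hdb') hFpos.le
    have e2 : δ * F = α / 4 := by rw [hδ]; field_simp
    have e3 : (δ * m * m ^ (i + 1) + C0 * m * m ^ i + N) * F =
        (δ * F) * m ^ (i + 2) + C0 * F * m ^ (i + 1) + N * F := by ring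
    rw [e3, e2] at e1
    have e4 : (1 - L0) * (m ^ (i + 2) - K * K * m ^ (i + 1)) ≤ (1 - L0) * A :=
      mul_le_mul_of_nonneg_left hAge (by linarith)
    have e5 : (1 - L0) * (K * K * m ^ (i + 1)) ≤ K * K * m ^ (i + 1) := by
      have : 0 ≤ K * K * m ^ (i + 1) := by positivity
      exact mul_le_of_le_one_left this (by linarith)
    have e6 : α * A ≤ α * m ^ (i + 2) := mul_le_mul_of_nonneg_left hAle hαpos.le
    have e7 : 2 * C2 < m * α := (div_lt_iff₀ hαpos).1 hm2
    have e8 : C2 * m ^ (i + 1) ≤ α / 2 * m ^ (i + 2) := by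
      have : α / 2 * m ^ (i + 2) = (m * α) / 2 * m ^ (i + 1) := by ring
      rw [this]
      exact mul_le_mul_of_nonneg_right (by linarith) (by positivity)
    have e9 : C2 * m ^ (i + 1) = C0 * F * m ^ (i + 1) + K * K * m ^ (i + 1) := by
      rw [hC2]; ring
    have e10 : 0 ≤ α * m ^ (i + 2) := by positivity
    have e11 : (1 - L0 - α) * A = (1 - L0) * A - α * A := by ring
    rw [e11] at e1
    have e12 : (1 - L0) * (m ^ (i + 2) - K * K * m ^ (i + 1)) =
        m ^ (i + 2) - m ^ (i + 2) * L0 - (1 - L0) * (K * K * m ^ (i + 1)) := by ring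
    rw [e12] at e4
    linarith
  have hbadm : (bad.card : ℝ) ≤ g1 * m := by
    have h1 : (bad.card : ℝ) ^ (i + 2) ≤ (g1 * m) ^ (i + 2) := by
      rw [hα] at hmain
      have h2 : 2 * (ρ * g1 ^ (i + 2) / 8) * m ^ (i + 2) = ρ * ((g1 * m) ^ (i + 2) / 4) := by
        rw [mul_pow]; ring
      rw [h2] at hmain
      have h4 := le_of_mul_le_mul_left hmain hρ
      have h5 : 0 ≤ (g1 * m) ^ (i + 2) := by positivity
      linarith
    exact le_of_pow_le_pow_left₀ (by omega) (by positivity) h1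
  -- the set of light vertices
  set B : Finset (Fin n) := W.filter (fun v => K * z v < g1) with hB
  set Hi : Finset (Fin n) := W.filter (fun v => K - g1 < K * z v) with hHi
  have hHic : (Hi.card : ℝ) * (K - g1) ≤ m := by
    calc (Hi.card : ℝ) * (K - g1) = ∑ v ∈ Hi, (K - g1) := by rw [sum_const, nsmul_eq_mul]
      _ ≤ ∑ v ∈ Hi, K * z v := sum_le_sum fun v hv => (mem_filter.1 hv).2.le
      _ ≤ ∑ v ∈ W, K * z v := sum_le_sum_of_subset_of_nonneg (filter_subset _ _)
          fun v _ _ => mul_nonneg hK0.le (hz01 v).1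
      _ = K * ∑ v ∈ W, z v := (mul_sum _ _ _).symm
      _ ≤ K * (m / K) := mul_le_mul_of_nonneg_left hzW hK0.le
      _ = m := by field_simp
  have hHic2 : (Hi.card : ℝ) ≤ m * (1 / K + g1) := by
    have h1 : 0 < K - g1 := by linarith
    have h2 : 1 ≤ (1 / K + g1) * (K - g1) := by
      have h4 : (1 / K + g1) * (K - g1) = 1 + g1 * (K - 1 / K - g1) := by field_simp; ring
      have h5 : 1 / K ≤ 1 := by rw [div_le_one hK0]; linarith
      rw [h4]
      have h6 : 0 ≤ g1 * (K - 1 / K - g1) := mul_nonneg hg1pos.le (by linarith)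
      linarith
    have h4 : (Hi.card : ℝ) * (K - g1) ≤ m * (1 / K + g1) * (K - g1) := by
      calc (Hi.card : ℝ) * (K - g1) ≤ m := hHic
        _ = m * 1 := (mul_one m).symm
        _ ≤ m * ((1 / K + g1) * (K - g1)) := mul_le_mul_of_nonneg_left h2 hmpos.le
        _ = _ := (mul_assoc _ _ _).symm
    exact le_of_mul_le_mul_right h4 h1
  have hcov : W ⊆ B ∪ bad ∪ Hi := by
    intro x hx
    rw [mem_union, mem_union, hB, hbad, hHi, mem_filter, mem_filter, mem_filter]
    rcases lt_or_ge (K * z x) g1 with h | h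
    · exact Or.inl (Or.inl ⟨hx, h⟩)
    · rcases le_or_gt (K * z x) (K - g1) with h' | h'
      · exact Or.inl (Or.inr ⟨hx, h, h'⟩)
      · exact Or.inr ⟨hx, h'⟩
  have hcovc : m ≤ (B.card : ℝ) + bad.card + Hi.card := by
    have h1 : W.card ≤ B.card + bad.card + Hi.card :=
      (card_le_card hcov).trans ((card_union_le _ _).trans
        (Nat.add_le_add_right (card_union_le _ _) _))
    rw [hm]; exact_mod_cast h1
  have hBc : (1 - 1 / K - γ) * m ≤ (B.card : ℝ) := by
    have h1 : g1 * m ≤ γ / 4 * m := mul_le_mul_of_nonneg_right hg1b hmpos.le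
    have h2 : m * (1 / K + g1) = 1 / K * m + g1 * m := by ring
    have h4 : (1 - 1 / K - γ) * m = m - 1 / K * m - γ * m := by ring
    have h5 : 0 < γ * m := mul_pos hγ hmpos
    rw [h2] at hHic2
    rw [h4]
    linarith
  have hfin := hext B (filter_subset _ _) (by rw [hcast]; exact hBc)
  have hup : ((H.filter (fun e => e ⊆ B)).card : ℝ) ≤ C0 * m * m ^ (i + 1) := by
    have h1 : H.filter (fun e => e ⊆ B) ⊆
        P.biUnion (fun p => H.filter (fun e => ({p.1, p.2} : Finset (Fin n)) ⊆ e)) := by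
      intro e he
      obtain ⟨heH, heB⟩ := mem_filter.1 he
      rcases hPz e heH with ⟨p, hpP, h1, h2⟩ | h1
      · rw [mem_biUnion]
        refine ⟨p, hpP, mem_filter.2 ⟨heH, ?_⟩⟩
        intro x hx
        rw [mem_insert, mem_singleton] at hx
        rcases hx with rfl | rfl
        · exact h1
        · exact h2
      · exfalso
        have h2 : ∑ v ∈ e, K * z v ≤ ∑ v ∈ e, g1 :=
          sum_le_sum fun v hv => (mem_filter.1 (heB hv)).2.le
        rw [← mul_sum, sum_const, hHk e heH, nsmul_eq_mul, hcast] at h2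
        have h4 := le_of_mul_le_mul_left h2 hK0
        linarith
    have h2 : (H.filter (fun e => e ⊆ B)).card ≤ P.card * W.card ^ (i + 1) := by
      refine (card_le_card h1).trans (card_biUnion_le_card_mul _ _ _ fun p hp => ?_)
      have h4 := card_containing (i + 3) W H hHk hHW {p.1, p.2}
      rw [card_pair (hPW p hp).1] at h4
      exact h4
    have h4 : ((H.filter (fun e => e ⊆ B)).card : ℝ) ≤ (P.card : ℝ) * m ^ (i + 1) := by
      rw [hm]; exact_mod_cast h2
    exact h4.trans (mul_le_mul_of_nonneg_right hPC (by positivity))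
  have h9 : C0 < m * γ := (div_lt_iff₀ hγ).1 hm3
  have h10 : C0 * m * m ^ (i + 1) ≤ γ * m ^ (i + 3) := by
    have : γ * m ^ (i + 3) = (m * γ) * (m * m ^ (i + 1)) := by ring
    rw [this, mul_assoc]
    exact mul_le_mul_of_nonneg_right h9.le (by positivity)
  linarith

end Pool.Agent.W486.EM
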